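import Mathlib
import Pool.Agent.Q23.Psi.Exist

/-!
# MP_e01960_al: an ideal `I` with `I` and `I ^ 2` principal symmetric, but without a generator
invariant up to scalars under a transposition

`Q23Psi.symIdeal f` is the ideal generated by the orbit of `f` under the symmetric group and
`Q23Psi.IsPsi I` says that `I = symIdeal f` for some homogeneous `f` (see
`Pool/Agent/Q23/Psi/Defs.lean`).
-/

namespace Pool.Agent.Results.MP_e01960_al.NoInvariantGenerator

open MvPolynomial Equiv Q23Psi

universe u

/-- For every algebraically closed field `k` of characteristic zero there is a principal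
symmetric ideal `I` of `k[x_1, ..., x_7]` such that `I ^ 2` is a principal symmetric ideal, while
no polynomial `f` (homogeneous or not) with `I = (f)_{S_7}` is mapped to a scalar multiple of
itself by a transposition. -/
theorem result (k : Type u) [Field k] [IsAlgClosed k] [CharZero k] :
    ∃ I : Ideal (MvPolynomial (Fin 7) k), IsPsi I ∧ IsPsi (I ^ 2) ∧
      ∀ f : MvPolynomial (Fin 7) k, I = symIdeal f →
        ∀ i j : Fin 7, i ≠ j → ∀ c : k, rename (swap i j) f ≠ C c * f := by
  obtain ⟨a, f, hf, hhom, hfe, hf1, hf2⟩ := exists_isotropic (k := k)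
  obtain ⟨D⟩ := exists_cfg a f hf hhom hfe hf1 hf2
  exact ⟨D.I, D.psi_I, D.psi_I2, fun p hp i j hij c => D.no_tau p hp i j hij c⟩

end Pool.Agent.Results.MP_e01960_al.NoInvariantGenerator
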